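import Pool.Agent.L7h48.RT.Stm

/-!
# Project RT, part MSR: increments of a monotone function
-/

namespace Pool.Agent.L7h15.RT

open Filter Topology MeasureTheory Set
open Pool.Agent.L7h48.RT

theorem msr_aux (g : ℝ → ℝ) (hg : Monotone g) (h0 : ∀ x, 0 ≤ g x) (h1 : ∀ x, g x ≤ 1)
    (a b d η : ℝ) (hab : a < b) (hd : 0 < d) (hη : 0 < η) :
    volume {x ∈ Set.Icc a b | η < g x - g (x - d)} ≤ ENNReal.ofReal (d / η) := by
  have hi : ∀ u v : ℝ, IntervalIntegrable g volume u v := fun u v =>
    hg.intervalIntegrable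
  have hgd : Monotone (fun x => g (x - d)) := fun x y hxy => hg (by linarith)
  have hi2 : IntervalIntegrable (fun x => g (x - d)) volume a b := hgd.intervalIntegrable
  have e1 : ∫ x in a..b, (g x - g (x - d)) =
      (∫ x in (b - d)..b, g x) - ∫ x in (a - d)..a, g x := by
    rw [intervalIntegral.integral_sub (hi a b) hi2, intervalIntegral.integral_comp_sub_right]
    exact intervalIntegral.integral_interval_sub_interval_comm' (hi _ _) (hi _ _) (hi _ _)
  have e2 : ∫ x in (b - d)..b, g x ≤ d := by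
    calc ∫ x in (b - d)..b, g x ≤ ∫ x in (b - d)..b, (1 : ℝ) :=
          intervalIntegral.integral_mono_on (by linarith) (hi _ _) (by simp) (fun x _ => h1 x)
      _ = d := by simp
  have e3 : 0 ≤ ∫ x in (a - d)..a, g x :=
    intervalIntegral.integral_nonneg (by linarith) (fun x _ => h0 x)
  have e4 : ∫ x in a..b, (g x - g (x - d)) ≤ d := by linarith
  have hint : Integrable (fun x => g x - g (x - d)) (volume.restrict (Icc a b)) := by
    have := (hi a b).sub hi2
    rw [intervalIntegrable_iff_integrableOn_Icc_of_le hab.le] at this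
    exact this
  have hm := mul_meas_ge_le_integral_of_nonneg (μ := volume.restrict (Icc a b))
    (f := fun x => g x - g (x - d))
    (Eventually.of_forall fun x => sub_nonneg.2 (hg (by linarith))) hint η
  have e5 : ∫ x, (g x - g (x - d)) ∂(volume.restrict (Icc a b)) ≤ d := by
    rw [integral_Icc_eq_integral_Ioc, ← intervalIntegral.integral_of_le hab.le]
    exact e4
  have e6 : (volume.restrict (Icc a b)).real {x | η ≤ g x - g (x - d)} ≤ d / η := by
    rw [le_div_iff₀ hη]
    linarith
  have e7 : volume {x ∈ Set.Icc a b | η < g x - g (x - d)} ≤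
      (volume.restrict (Icc a b)) {x | η ≤ g x - g (x - d)} := by
    rw [Measure.restrict_apply' measurableSet_Icc]
    refine measure_mono ?_
    rintro x ⟨hx, hx2⟩
    exact ⟨le_of_lt hx2, hx⟩
  refine e7.trans ?_
  rw [← ofReal_measureReal (by
    exact ne_of_lt ((measure_mono (subset_univ _)).trans_lt (by
      rw [Measure.restrict_apply_univ, Real.volume_Icc]
      exact ENNReal.ofReal_lt_top)))]
  exact ENNReal.ofReal_le_ofReal e6

theorem s_MSR : S_MSR := by
  intro f a b d η hab hd hη hf h01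
  have hab' : a - d ≤ b := by linarith
  obtain ⟨g, hg⟩ : ∃ g : ℝ → ℝ, g = fun x => f (max (a - d) (min x b)) := ⟨_, rfl⟩
  have hmem : ∀ x : ℝ, max (a - d) (min x b) ∈ Icc (a - d) b := fun x =>
    ⟨le_max_left _ _, max_le hab' (min_le_right _ _)⟩
  have hgm : Monotone g := by
    intro x y hxy
    rw [hg]
    exact hf (hmem x) (hmem y) (max_le_max le_rfl (min_le_min hxy le_rfl))
  have hg0 : ∀ x, 0 ≤ g x := fun x => by rw [hg]; exact (h01 _ (hmem x)).1
  have hg1 : ∀ x, g x ≤ 1 := fun x => by rw [hg]; exact (h01 _ (hmem x)).2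
  have hgf : ∀ x ∈ Icc (a - d) b, g x = f x := by
    intro x hx
    rw [hg]
    show f _ = f x
    rw [min_eq_left hx.2, max_eq_right hx.1]
  refine le_trans (measure_mono ?_) (msr_aux g hgm hg0 hg1 a b d η hab hd hη)
  rintro x ⟨hx, hx2⟩
  refine ⟨hx, ?_⟩
  rw [hgf x ⟨by linarith [hx.1], hx.2⟩, hgf (x - d) ⟨by linarith [hx.1], by linarith [hx.2]⟩]
  exact hx2

end Pool.Agent.L7h15.RT
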